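import Pool.Agent.LibEye.Strong
import Pool.Agent.LibEY38.Glue
import Pool.Agent.LibKam44.Conv

/-!
# Coexistence for real-analytic Standard maps (MP_be9500_an, partial answer to Q1)

For every integer `E` with `E > 0` or `E < -4` there is a real-analytic `2π`-periodic function `g` such that the
Standard map `T_f`, `f(x) = E x + g(x)`, has an open invariant set `D` around the elliptic fixed point `0`; almost every
point outside `D` has a positive Lyapunov exponent (and the complement of `D` has non-empty interior), while the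
Lyapunov exponent vanishes on a set of positive measure in every neighbourhood of `0`.
-/

set_option autoImplicit false

open Real Set MeasureTheory Filter Topology

namespace Pool.Agent.Results.MP_be9500_an.AnalyticCoexistence

open Pool.Agent.LibEye

theorem result (E : ℤ) (hE : 0 < E ∨ E < -4) :
    ∃ g : ℝ → ℝ, AnalyticOnNhd ℝ g univ ∧ Function.Periodic g (2 * π) ∧
      stdMap E g 0 = 0 ∧ |2 + E + deriv g 0| < 2 ∧
      ∃ D : Set Torus, IsOpen D ∧ stdMap E g ⁻¹' D = D ∧ (0 : Torus) ∈ D ∧ (interior Dᶜ).Nonempty ∧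
        (∀ᵐ p : Torus, p ∉ D → 0 < lyap E g p) ∧
        ∀ V : Set Torus, IsOpen V → (0 : Torus) ∈ V → 0 < volume {p : Torus | p ∈ V ∧ lyap E g p = 0} := by
  refine scoex_all (fun N hN => ?_) E hE
  obtain ⟨F, F1, F2, u, a, b, κ, H, hA, h1, h2, h3, h4, h5, h6⟩ := LibEY38.glue N hN
  exact ⟨F, u, a, b, κ, H, hA, h6, Pool.Agent.LibKam44.zero_exp F F1 F2 (hA 0 (mem_univ _)) H.hodd h1 h2 h3 h4 h5⟩

end Pool.Agent.Results.MP_be9500_an.AnalyticCoexistence
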